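import Pool.Agent.W988.WD.Defs

set_option autoImplicit false
open scoped InnerProductSpace Topology
open Filter
open Pool.Agent.W988.WD

namespace Pool.Agent.W32.WDM

section alg
variable {A : Type*} [Ring A] [StarRing A]

/-- the shift of the remainder into the sequence -/
def uu (s : ℕ → A) (v0 r : A) : Option (ℕ × Bool) → A
  | none => s 0 * v0
  | some (n, true) => s (n + 1) * (v0 * star v0) * star (s n)
  | some (n, false) => s n * (r - v0 * star v0) * star (s n)

variable {s : ℕ → A} {v0 r : A}

lemma red1 (hss : ∀ n, star (s n) * s n = r) (a b : A) (n : ℕ) :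
    a * star (s n) * (s n * b) = a * r * b := by
  rw [← hss n]; simp only [mul_assoc]

lemma red0 (hsm : ∀ m n, m ≠ n → star (s m) * s n = 0) (a b : A) {m n : ℕ} (h : m ≠ n) :
    a * star (s m) * (s n * b) = 0 := by
  have : a * star (s m) * (s n * b) = a * (star (s m) * s n) * b := by simp only [mul_assoc]
  rw [this, hsm m n h, mul_zero, zero_mul]

/-- hypotheses -/
structure Hyp (s : ℕ → A) (v0 r : A) : Prop where
  r1 : star r = r
  r2 : r * r = r
  ss : ∀ n, star (s n) * s n = r
  sm : ∀ m n, m ≠ n → star (s m) * s n = 0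
  sr : ∀ n, s n * r = s n
  vs : ∀ n, v0 * s n = 0
  rv : r * v0 = v0
  vv : v0 * star v0 * v0 = v0

namespace Hyp
variable (h : Hyp s v0 r)
include h

lemma vr : star v0 * r = star v0 := by
  have := congrArg star h.rv
  rw [star_mul, h.r1] at this
  exact this

lemma rs (n : ℕ) : r * star (s n) = star (s n) := by
  have := congrArg star (h.sr n)
  rw [star_mul, h.r1] at this
  exact this

lemma sv (n : ℕ) : star (s n) * star v0 = 0 := by
  have := congrArg star (h.vs n)
  rw [star_mul, star_zero] at this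
  exact this

lemma t1 : star (v0 * star v0) = v0 * star v0 := by rw [star_mul, star_star]

lemma t2 : (v0 * star v0) * (v0 * star v0) = v0 * star v0 := by
  rw [← mul_assoc, h.vv]

lemma rt : r * (v0 * star v0) = v0 * star v0 := by rw [← mul_assoc, h.rv]

lemma tr : (v0 * star v0) * r = v0 * star v0 := by rw [mul_assoc, h.vr]

lemma d1 : star (r - v0 * star v0) = r - v0 * star v0 := by rw [star_sub, h.t1, h.r1]

lemma d2 : (r - v0 * star v0) * (r - v0 * star v0) = r - v0 * star v0 := by
  rw [sub_mul, mul_sub, mul_sub, h.r2, h.rt, h.tr, h.t2]; simp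

lemma rd : r * (r - v0 * star v0) = r - v0 * star v0 := by rw [mul_sub, h.r2, h.rt]

lemma dr : (r - v0 * star v0) * r = r - v0 * star v0 := by rw [sub_mul, h.r2, h.tr]

lemma td : (v0 * star v0) * (r - v0 * star v0) = 0 := by rw [mul_sub, h.tr, h.t2, sub_self]

lemma dt : (r - v0 * star v0) * (v0 * star v0) = 0 := by rw [sub_mul, h.rt, h.t2, sub_self]

/-- the two projections -/
def qq (v0 r : A) : Bool → A
  | true => v0 * star v0
  | false => r - v0 * star v0

lemma q1 (b : Bool) : star (qq v0 r b) = qq v0 r b := by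
  cases b
  · exact h.d1
  · exact h.t1

lemma q2 (b : Bool) : qq v0 r b * qq v0 r b = qq v0 r b := by
  cases b
  · exact h.d2
  · exact h.t2

lemma q3 {b c : Bool} (hbc : b ≠ c) : qq v0 r b * qq v0 r c = 0 := by
  cases b <;> cases c
  · exact absurd rfl hbc
  · exact h.dt
  · exact h.td
  · exact absurd rfl hbc

lemma q4 (b : Bool) : r * qq v0 r b = qq v0 r b := by
  cases b
  · exact h.rd
  · exact h.rt

lemma q5 (b : Bool) : qq v0 r b * r = qq v0 r b := by
  cases b
  · exact h.dr
  · exact h.tr

/-- the index of the final space -/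
def ff : ℕ → Bool → ℕ
  | n, true => n + 1
  | n, false => n

lemma ueq (n : ℕ) (b : Bool) : uu s v0 r (some (n, b)) = s (ff n b) * qq v0 r b * star (s n) := by
  cases b <;> rfl

lemma ustar (n : ℕ) (b : Bool) :
    star (uu s v0 r (some (n, b))) = s n * qq v0 r b * star (s (ff n b)) := by
  rw [h.ueq, star_mul, star_mul, star_star, h.q1, mul_assoc]

lemma pis (i : Option (ℕ × Bool)) :
    uu s v0 r i * star (uu s v0 r i) * uu s v0 r i = uu s v0 r i := by
  rcases i with _ | ⟨n, b⟩
  · show s 0 * v0 * star (s 0 * v0) * (s 0 * v0) = s 0 * v0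
    rw [star_mul]
    calc s 0 * v0 * (star v0 * star (s 0)) * (s 0 * v0)
        = s 0 * v0 * star v0 * (star (s 0) * s 0) * v0 := by simp only [mul_assoc]
      _ = s 0 * (v0 * star v0 * v0) := by
          rw [h.ss, mul_assoc (s 0 * v0 * star v0), h.rv]; simp only [mul_assoc]
      _ = s 0 * v0 := by rw [h.vv]
  · rw [h.ustar, h.ueq]
    calc s (ff n b) * qq v0 r b * star (s n) * (s n * qq v0 r b * star (s (ff n b))) *
          (s (ff n b) * qq v0 r b * star (s n))
        = s (ff n b) * qq v0 r b * (star (s n) * s n) * qq v0 r b *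
          (star (s (ff n b)) * s (ff n b)) * qq v0 r b * star (s n) := by simp only [mul_assoc]
      _ = s (ff n b) * (qq v0 r b * r) * qq v0 r b * (r * qq v0 r b) * star (s n) := by
          rw [h.ss, h.ss]; simp only [mul_assoc]
      _ = s (ff n b) * (qq v0 r b * qq v0 r b * qq v0 r b) * star (s n) := by
          rw [h.q5, h.q4]; simp only [mul_assoc]
      _ = s (ff n b) * qq v0 r b * star (s n) := by rw [h.q2, h.q2]

lemma o1 (n : ℕ) (b : Bool) : star (s 0 * v0) * (s (ff n b) * qq v0 r b * star (s n)) = 0 := by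
  rw [star_mul]
  by_cases hn : 0 = ff n b
  · have hb : b = false := by
      cases b
      · rfl
      · simp only [ff] at hn; omega
    subst hb
    have h1 : star v0 * star (s 0) * (s (ff n false) * qq v0 r false * star (s n)) =
        star v0 * (star (s 0) * s (ff n false)) * qq v0 r false * star (s n) := by
      simp only [mul_assoc]
    rw [h1, ← hn, h.ss, h.vr]
    have h2 : star v0 * qq v0 r false = 0 := by
      show star v0 * (r - v0 * star v0) = 0
      rw [mul_sub, h.vr]
      have := congrArg star h.vv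
      rw [star_mul, h.t1] at this
      rw [this, sub_self]
    rw [h2, zero_mul]
  · have h1 : star v0 * star (s 0) * (s (ff n b) * qq v0 r b * star (s n)) =
        star v0 * (star (s 0) * s (ff n b)) * qq v0 r b * star (s n) := by
      simp only [mul_assoc]
    rw [h1, h.sm _ _ hn, mul_zero, zero_mul, zero_mul]

lemma o2 (m n : ℕ) (b c : Bool) (hne : (m, b) ≠ (n, c)) :
    (s m * qq v0 r b * star (s (ff m b))) * (s (ff n c) * qq v0 r c * star (s n)) = 0 := by
  have h1 : (s m * qq v0 r b * star (s (ff m b))) * (s (ff n c) * qq v0 r c * star (s n)) =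
      s m * qq v0 r b * (star (s (ff m b)) * s (ff n c)) * qq v0 r c * star (s n) := by
    simp only [mul_assoc]
  rw [h1]
  by_cases he : ff m b = ff n c
  · have hbc : b ≠ c := by
      rintro rfl
      apply hne
      cases b
      · simp only [ff] at he; rw [he]
      · simp only [ff] at he
        have : m = n := by omega
        rw [this]
    rw [he, h.ss, mul_assoc (s m), h.q5, mul_assoc (s m), h.q3 hbc]
    simp
  · rw [h.sm _ _ he]; simp

lemma o3 (m n : ℕ) (b c : Bool) (hne : (m, b) ≠ (n, c)) :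
    (s (ff m b) * qq v0 r b * star (s m)) * (s n * qq v0 r c * star (s (ff n c))) = 0 := by
  have h1 : (s (ff m b) * qq v0 r b * star (s m)) * (s n * qq v0 r c * star (s (ff n c))) =
      s (ff m b) * qq v0 r b * (star (s m) * s n) * qq v0 r c * star (s (ff n c)) := by
    simp only [mul_assoc]
  rw [h1]
  by_cases he : m = n
  · have hbc : b ≠ c := by
      rintro rfl
      exact hne (by rw [he])
    rw [he, h.ss, mul_assoc (s _), h.q5, mul_assoc (s _), h.q3 hbc]
    simp
  · rw [h.sm _ _ he]; simp

lemma orth1 (i j : Option (ℕ × Bool)) (hij : i ≠ j) : star (uu s v0 r i) * uu s v0 r j = 0 := by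
  rcases i with _ | ⟨m, b⟩ <;> rcases j with _ | ⟨n, c⟩
  · exact absurd rfl hij
  · rw [h.ueq]; exact h.o1 n c
  · have h1 := h.o1 m b
    have h2 := congrArg star h1
    rw [star_mul, star_star, star_zero] at h2
    rw [h.ueq]; exact h2
  · rw [h.ustar, h.ueq]
    exact h.o2 m n b c (fun hh => hij (by rw [hh]))

lemma orth2 (i j : Option (ℕ × Bool)) (hij : i ≠ j) : uu s v0 r i * star (uu s v0 r j) = 0 := by
  have key : ∀ (n : ℕ) (c : Bool), (s 0 * v0) * (s n * qq v0 r c * star (s (ff n c))) = 0 := by
    intro n c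
    have h1 : (s 0 * v0) * (s n * qq v0 r c * star (s (ff n c))) =
        s 0 * (v0 * s n) * qq v0 r c * star (s (ff n c)) := by simp only [mul_assoc]
    rw [h1, h.vs]; simp
  rcases i with _ | ⟨m, b⟩ <;> rcases j with _ | ⟨n, c⟩
  · exact absurd rfl hij
  · rw [h.ustar]; exact key n c
  · have h2 := congrArg star (key m b)
    rw [star_mul, star_zero, star_mul, star_mul, star_star, h.q1, ← mul_assoc] at h2
    rw [h.ueq]; exact h2
  · rw [h.ustar, h.ueq]
    exact h.o3 m n b c (fun hh => hij (by rw [hh]))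

end Hyp
end alg

section main
variable {H : Type} [NormedAddCommGroup H] [InnerProductSpace ℂ H] [CompleteSpace H]

lemma inner_star (x : H →L[ℂ] H) (a b : H) : ⟪a, (star x) b⟫_ℂ = ⟪x a, b⟫_ℂ := by
  rw [ContinuousLinearMap.star_eq_adjoint, ContinuousLinearMap.adjoint_inner_right]

lemma zero_of_star (x : H →L[ℂ] H) (h : star x * x = 0) : x = 0 :=
  CStarRing.star_mul_self_eq_zero_iff x |>.mp h

lemma zero_of_star2 (x : H →L[ℂ] H) (ξ : H) (h : (star x) (x ξ) = 0) : x ξ = 0 := by
  have h1 : ⟪x ξ, x ξ⟫_ℂ = 0 := by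
    rw [← inner_star, h, inner_zero_right]
  exact inner_self_eq_zero.mp h1

lemma powmul {A : Type*} [Ring A] [StarRing A] {v : A} (hv : star v * v = 1) (n : ℕ) :
    star (v ^ n) * v ^ n = 1 := by
  induction n with
  | zero => simp
  | succ n ih =>
    rw [pow_succ', star_mul]
    calc star (v ^ n) * star v * (v * v ^ n) = star (v ^ n) * (star v * v) * v ^ n := by
          simp only [mul_assoc]
      _ = 1 := by rw [hv, mul_one, ih]

lemma worth {A : Type*} [Ring A] [StarRing A] {v : A} (hv : star v * v = 1) (m n : ℕ) (hmn : m ≠ n) :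
    star (v ^ m * (1 - v * star v)) * (v ^ n * (1 - v * star v)) = 0 := by
  have hr : star (1 - v * star v) = 1 - v * star v := by
    rw [star_sub, star_one, star_mul, star_star]
  have hrv : (1 - v * star v) * v = 0 := by
    rw [sub_mul, one_mul, mul_assoc, hv, mul_one, sub_self]
  have key : ∀ m k : ℕ, star (v ^ m * (1 - v * star v)) * (v ^ (m + (k + 1)) * (1 - v * star v)) = 0 := by
    intro m k
    rw [star_mul, hr, pow_add, pow_succ']
    calc (1 - v * star v) * star (v ^ m) * (v ^ m * (v * v ^ k) * (1 - v * star v))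
        = (1 - v * star v) * (star (v ^ m) * v ^ m) * v * v ^ k * (1 - v * star v) := by
          simp only [mul_assoc]
      _ = 0 := by rw [powmul hv, mul_one, hrv, zero_mul, zero_mul]
  rcases Nat.lt_or_gt_of_ne hmn with h | h
  · obtain ⟨k, rfl⟩ : ∃ k, n = m + (k + 1) := ⟨n - m - 1, by omega⟩
    exact key m k
  · obtain ⟨k, rfl⟩ : ∃ k, m = n + (k + 1) := ⟨m - n - 1, by omega⟩
    have := congrArg star (key n k)
    rw [star_mul, star_star, star_zero] at this
    exact this

/-- families of isometries with the same initial projection and orthogonal ranges -/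
def Fam (N : VonNeumannAlgebra H) (r : H →L[ℂ] H) (J : Set (H →L[ℂ] H)) : Prop :=
  (∀ s ∈ J, s ∈ N ∧ star s * s = r) ∧ ∀ s ∈ J, ∀ t ∈ J, s ≠ t → star s * t = 0

lemma fam_countable [TopologicalSpace.SeparableSpace H] (N : VonNeumannAlgebra H) (r : H →L[ℂ] H)
    (hr : Prj r) (hr0 : r ≠ 0) (J : Set (H →L[ℂ] H)) (hJ : Fam N r J) : J.Countable := by
  obtain ⟨ζ, hζ⟩ : ∃ ζ, r ζ ≠ 0 := by
    by_contra hc
    push Not at hc
    exact hr0 (ContinuousLinearMap.ext hc)
  set ξ := r ζ with hξ
  have hrξ : r ξ = ξ := by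
    have := congrArg (fun x : H →L[ℂ] H => x ζ) hr.2
    simpa using this
  have hpos : 0 < ‖ξ‖ := norm_pos_iff.mpr hζ
  refine Set.PairwiseDisjoint.countable_of_isOpen (s := fun s : H →L[ℂ] H => Metric.ball (s ξ) (‖ξ‖ / 2))
    ?_ (fun _ _ => Metric.isOpen_ball) (fun s _ => ⟨s ξ, Metric.mem_ball_self (by linarith)⟩)
  intro s hs t ht hst
  apply Metric.ball_disjoint_ball
  rw [dist_eq_norm]
  have h1 : ⟪s ξ, s ξ⟫_ℂ = ⟪ξ, ξ⟫_ℂ := by
    rw [← inner_star]
    show ⟪ξ, (star s * s) ξ⟫_ℂ = _
    rw [(hJ.1 s hs).2, hrξ]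
  have h2 : ⟪s ξ, t ξ⟫_ℂ = 0 := by
    rw [← inner_star]
    show ⟪ξ, (star s * t) ξ⟫_ℂ = _
    rw [hJ.2 s hs t ht hst]
    exact inner_zero_right ξ
  have h3 : ‖s ξ‖ = ‖ξ‖ := by
    have e1 : ‖s ξ‖ ^ 2 = ‖ξ‖ ^ 2 := by
      have := congrArg RCLike.re h1
      rw [inner_self_eq_norm_sq, inner_self_eq_norm_sq] at this
      exact this
    exact (pow_left_inj₀ (norm_nonneg _) (norm_nonneg _) (by norm_num)).mp e1
  have h4 : ‖s ξ - t ξ‖ ^ 2 = ‖s ξ‖ ^ 2 + ‖t ξ‖ ^ 2 := by
    have := @norm_sub_sq ℂ H _ _ _ (s ξ) (t ξ)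
    rw [h2] at this
    simpa using this
  have h5 : ‖ξ‖ ≤ ‖s ξ - t ξ‖ := by
    refine (sq_le_sq₀ (norm_nonneg _) (norm_nonneg _)).mp ?_
    rw [h4, h3]
    nlinarith [sq_nonneg ‖t ξ‖]
  linarith

/-- the projection on the closed span of the ranges -/
lemma proj_span (h1 : S_ZSUM) (N : VonNeumannAlgebra H) (r : H →L[ℂ] H) (s : ℕ → (H →L[ℂ] H))
    (hN : ∀ n, s n ∈ N) (hss : ∀ n, star (s n) * s n = r)
    (hsm : ∀ m n, m ≠ n → star (s m) * s n = 0) (hsr : ∀ n, s n * r = s n) :
    ∃ T ∈ N, Prj T ∧ (∀ n, T * s n = s n) ∧ ∀ ξ : H, (∀ n, star (s n) ξ = 0) → T ξ = 0 := by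
  have hpp : ∀ n, (s n * star (s n)) * (s n * star (s n)) = s n * star (s n) := by
    intro n
    calc (s n * star (s n)) * (s n * star (s n)) = s n * (star (s n) * s n) * star (s n) := by
          simp only [mul_assoc]
      _ = s n * star (s n) := by rw [hss, hsr]
  have hps : ∀ n, star (s n * star (s n)) = s n * star (s n) := by
    intro n; rw [star_mul, star_star]
  have hpo : ∀ m n, m ≠ n → (s m * star (s m)) * (s n * star (s n)) = 0 := by
    intro m n hmn
    calc (s m * star (s m)) * (s n * star (s n)) = s m * (star (s m) * s n) * star (s n) := by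
          simp only [mul_assoc]
      _ = 0 := by rw [hsm m n hmn, mul_zero, zero_mul]
  obtain ⟨V, hVN, hVV, hV1, hV2, hV3, hV4⟩ := h1 H N ℕ (fun n => s n * star (s n))
    (fun n => mul_mem (hN n) (star_mem (hN n)))
    (fun n => by simp only [hps, hpp])
    (fun i j hij => by simp only [hps]; exact hpo i j hij)
    (fun i j hij => by simp only [hps]; exact hpo i j hij)
  refine ⟨star V * V, mul_mem (star_mem hVN) hVN, ⟨?_, ?_⟩, ?_, ?_⟩
  · rw [star_mul, star_star]
  · calc star V * V * (star V * V) = star V * (V * star V * V) := by simp only [mul_assoc]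
      _ = star V * V := by rw [hVV]
  · intro n
    have e1 : V * (s n * star (s n)) = s n * star (s n) := by
      have := hV1 n
      simp only [hps, hpp] at this
      exact this
    have e2 : (s n * star (s n)) * V = s n * star (s n) := by
      have := hV2 n
      simp only [hps, hpp] at this
      exact this
    have e3 : star V * (s n * star (s n)) = s n * star (s n) := by
      have := congrArg star e2
      rw [star_mul, hps] at this
      exact this
    have e4 : s n = (s n * star (s n)) * s n := by rw [mul_assoc, hss, hsr]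
    calc star V * V * s n = star V * V * ((s n * star (s n)) * s n) := by rw [← e4]
      _ = star V * (V * (s n * star (s n))) * s n := by simp only [mul_assoc]
      _ = (s n * star (s n)) * s n := by rw [e1, e3]
      _ = s n := e4.symm
  · intro ξ hξ
    have : V ξ = 0 := hV3 ξ (fun n => by
      show (s n) ((star (s n)) ξ) = 0
      rw [hξ n, map_zero])
    show (star V) (V ξ) = 0
    rw [this, map_zero]

/-- from a maximal sequence to matrix units -/
lemma final (h1 : S_ZSUM) (N : VonNeumannAlgebra H) (r v0 T : H →L[ℂ] H) (s : ℕ → (H →L[ℂ] H))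
    (hN : ∀ n, s n ∈ N) (hvN : v0 ∈ N) (h : Hyp s v0 r) (hrN : r ∈ N) (hr0 : r ≠ 0)
    (hT : star v0 * v0 = 1 - T) (hT2 : ∀ ξ : H, (∀ n, star (s n) ξ = 0) → T ξ = 0) :
    ∃ g : ℕ → (H →L[ℂ] H), MUnits N r g := by
  obtain ⟨W, hWN, hWW, hW1, hW2, hW3, hW4⟩ := h1 H N (Option (ℕ × Bool)) (uu s v0 r)
      (by
        intro i
        rcases i with _ | ⟨n, b⟩
        · exact mul_mem (hN 0) hvN
        · cases b
          · exact mul_mem (mul_mem (hN _) (sub_mem hrN (mul_mem hvN (star_mem hvN)))) (star_mem (hN _))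
          · exact mul_mem (mul_mem (hN _) (mul_mem hvN (star_mem hvN))) (star_mem (hN _)))
      h.pis h.orth1 h.orth2
  -- the kernel of `W` is trivial
  have hker : ∀ ξ : H, W ξ = 0 → ξ = 0 := by
    intro ξ hξ
    have hu : ∀ i, uu s v0 r i ξ = 0 := by
      intro i
      rw [← hW2 i]
      show (uu s v0 r i * star (uu s v0 r i)) (W ξ) = 0
      rw [hξ, map_zero]
    have hv : v0 ξ = 0 := by
      have e1 : (s 0) (v0 ξ) = 0 := hu none
      have e2 : (star (s 0) * s 0) (v0 ξ) = 0 := by
        show (star (s 0)) ((s 0) (v0 ξ)) = 0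
        rw [e1, map_zero]
      rw [h.ss] at e2
      have e3 : (r * v0) ξ = 0 := e2
      rw [h.rv] at e3
      exact e3
    have hTξ : T ξ = ξ := by
      have e1 : (star v0 * v0) ξ = 0 := by
        show (star v0) (v0 ξ) = 0
        rw [hv, map_zero]
      rw [hT] at e1
      have e2 : ξ - T ξ = 0 := e1
      exact (sub_eq_zero.mp e2).symm
    have hq : ∀ n b, Hyp.qq v0 r b ((star (s n)) ξ) = 0 := by
      intro n b
      have e1 : (s (Hyp.ff n b)) (Hyp.qq v0 r b ((star (s n)) ξ)) = 0 := by
        have := hu (some (n, b))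
        rw [h.ueq] at this
        exact this
      have e2 : (star (s (Hyp.ff n b)) * s (Hyp.ff n b)) (Hyp.qq v0 r b ((star (s n)) ξ)) = 0 := by
        show (star (s (Hyp.ff n b))) ((s (Hyp.ff n b)) (Hyp.qq v0 r b ((star (s n)) ξ))) = 0
        rw [e1, map_zero]
      rw [h.ss] at e2
      have e3 : (r * Hyp.qq v0 r b) ((star (s n)) ξ) = 0 := e2
      rw [h.q4] at e3
      exact e3
    have hs : ∀ n, (star (s n)) ξ = 0 := by
      intro n
      have e1 : (r * star (s n)) ξ = (star (s n)) ξ := by rw [h.rs]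
      have e2 : r = Hyp.qq v0 r true + Hyp.qq v0 r false := by
        show r = v0 * star v0 + (r - v0 * star v0)
        abel
      rw [← e1]
      show r ((star (s n)) ξ) = 0
      rw [e2]
      show Hyp.qq v0 r true ((star (s n)) ξ) + Hyp.qq v0 r false ((star (s n)) ξ) = 0
      rw [hq, hq, add_zero]
    rw [← hTξ]
    exact hT2 ξ hs
  have hiso : star W * W = 1 := by
    ext ξ
    show (star W) (W ξ) = ξ
    have e1 : W (ξ - (star W) (W ξ)) = 0 := by
      rw [map_sub]
      have e2 : (W * star W * W) ξ = W ξ := by rw [hWW]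
      have e3 : W ((star W) (W ξ)) = W ξ := e2
      rw [e3, sub_self]
    have e4 := hker _ e1
    exact (sub_eq_zero.mp e4).symm
  have hWu : ∀ i, W * star W * uu s v0 r i = uu s v0 r i := by
    intro i
    calc W * star W * uu s v0 r i
        = W * star W * (W * (star (uu s v0 r i) * uu s v0 r i)) := by rw [hW1 i]
      _ = (W * star W * W) * (star (uu s v0 r i) * uu s v0 r i) := by simp only [mul_assoc]
      _ = uu s v0 r i := by rw [hWW, hW1 i]
  have hWq : ∀ n b, W * star W * (s n * Hyp.qq v0 r b) = s n * Hyp.qq v0 r b := by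
    intro n b
    cases b
    · have e1 : s n * Hyp.qq v0 r false = uu s v0 r (some (n, false)) * s n := by
        rw [h.ueq]
        show _ = s n * Hyp.qq v0 r false * star (s n) * s n
        rw [mul_assoc (s n * _), h.ss, mul_assoc (s n), h.q5]
      rw [e1, ← mul_assoc, hWu]
    · cases n with
      | zero =>
        have e1 : s 0 * Hyp.qq v0 r true = uu s v0 r none * star v0 := by
          show s 0 * (v0 * star v0) = s 0 * v0 * star v0
          rw [mul_assoc]
        rw [e1, ← mul_assoc, hWu]
      | succ m =>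
        have e1 : s (m + 1) * Hyp.qq v0 r true = uu s v0 r (some (m, true)) * s m := by
          rw [h.ueq]
          show _ = s (m + 1) * Hyp.qq v0 r true * star (s m) * s m
          rw [mul_assoc (s (m + 1) * _), h.ss, mul_assoc (s (m + 1)), h.q5]
        rw [e1, ← mul_assoc, hWu]
  have hWs : ∀ n, W * star W * s n = s n := by
    intro n
    have e1 : s n = s n * Hyp.qq v0 r true + s n * Hyp.qq v0 r false := by
      rw [← mul_add]
      have e2 : Hyp.qq v0 r true + Hyp.qq v0 r false = r := by
        show v0 * star v0 + (r - v0 * star v0) = r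
        abel
      rw [e2, h.sr]
    calc W * star W * s n = W * star W * (s n * Hyp.qq v0 r true + s n * Hyp.qq v0 r false) := by
          rw [← e1]
      _ = s n := by rw [mul_add, hWq, hWq, ← e1]
  have hgg : ∀ m n, star (star W * s m) * (star W * s n) = star (s m) * s n := by
    intro m n
    rw [star_mul, star_star]
    calc star (s m) * W * (star W * s n) = star (s m) * (W * star W * s n) := by
          simp only [mul_assoc]
      _ = star (s m) * s n := by rw [hWs]
  refine ⟨fun n => star W * s n, ⟨fun n => mul_mem (star_mem hWN) (hN n), fun n => ?_,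
    fun m n hmn => ?_, ⟨h.r1, h.r2⟩, hr0, fun ξ hξ => ?_⟩⟩
  · rw [hgg, h.ss]
  · rw [hgg, h.sm m n hmn]
  · have hs : ∀ n, (star (s n)) (W ξ) = 0 := by
      intro n
      have := hξ n
      rw [star_mul, star_star] at this
      exact this
    have hW : (star W) (W ξ) = 0 := by
      apply hW4
      intro i
      rcases i with _ | ⟨n, b⟩
      · show (star (s 0 * v0)) (W ξ) = 0
        rw [star_mul]
        show (star v0) ((star (s 0)) (W ξ)) = 0
        rw [hs, map_zero]
      · rw [h.ustar]
        show (s n * Hyp.qq v0 r b) ((star (s (Hyp.ff n b))) (W ξ)) = 0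
        rw [hs, map_zero]
    have e1 : (star W * W) ξ = 0 := hW
    rw [hiso] at e1
    exact e1

end main

lemma mulproj {A : Type*} [Ring A] [StarRing A] {x q : A} (hq1 : star q = q) (hq2 : q * q = q)
    (hx : star x * x = q) : star (x - x * q) * (x - x * q) = 0 := by
  rw [star_sub, star_mul, hq1, sub_mul, mul_sub, mul_sub]
  have e2 : star x * (x * q) = q := by rw [← mul_assoc, hx, hq2]
  have e3 : q * star x * x = q := by rw [mul_assoc, hx, hq2]
  have e4 : q * star x * (x * q) = q := by rw [← mul_assoc, e3, hq2]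
  rw [e2, e3, e4, hx]; simp

lemma onesub {A : Type*} [Ring A] {q : A} (hq2 : q * q = q) : (1 - q) * (1 - q) = 1 - q :=
  IsIdempotentElem.one_sub hq2

theorem p_MU (h1 : S_ZSUM) (h2 : S_CMP) : S_MU := by
  intro H _ _ _ _ N hF hI
  obtain ⟨v, hvN, hv1, hv2⟩ := hI
  set r : H →L[ℂ] H := 1 - v * star v with hr
  have hr1 : star r = r := by rw [hr, star_sub, star_one, star_mul, star_star]
  have hvv : (v * star v) * (v * star v) = v * star v := by
    calc (v * star v) * (v * star v) = v * (star v * v) * star v := by simp only [mul_assoc]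
      _ = v * star v := by rw [hv1, mul_one]
  have hr2 : r * r = r := onesub hvv
  have hr0 : r ≠ 0 := by
    intro h0
    rw [hr, sub_eq_zero] at h0
    exact hv2 h0.symm
  have hrN : r ∈ N := sub_mem (one_mem N) (mul_mem hvN (star_mem hvN))
  set w : ℕ → (H →L[ℂ] H) := fun n => v ^ n * r with hw
  have hwN : ∀ n, w n ∈ N := fun n => mul_mem (pow_mem hvN n) hrN
  have hww : ∀ n, star (w n) * w n = r := by
    intro n
    simp only [hw]
    rw [star_mul, hr1]
    calc r * star (v ^ n) * (v ^ n * r) = r * (star (v ^ n) * v ^ n) * r := by simp only [mul_assoc]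
      _ = r := by rw [powmul hv1, mul_one, hr2]
  have hwo : ∀ m n, m ≠ n → star (w m) * w n = 0 := fun m n hmn => worth hv1 m n hmn
  have hwF : Fam N r (Set.range w) := by
    refine ⟨?_, ?_⟩
    · rintro _ ⟨n, rfl⟩
      exact ⟨hwN n, hww n⟩
    · rintro _ ⟨m, rfl⟩ _ ⟨n, rfl⟩ hne
      exact hwo m n (fun hh => hne (by rw [hh]))
  -- Zorn
  obtain ⟨J, hJw, hJmax⟩ := zorn_subset_nonempty {J : Set (H →L[ℂ] H) | Fam N r J} (by
    intro c hc hchain hne
    refine ⟨⋃₀ c, ⟨?_, ?_⟩, fun s hs => Set.subset_sUnion_of_mem hs⟩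
    · rintro s ⟨K, hK, hs⟩
      exact (hc hK).1 s hs
    · rintro s ⟨K, hK, hs⟩ t ⟨L, hL, ht⟩ hst
      rcases hchain.total hK hL with hKL | hLK
      · exact (hc hL).2 s (hKL hs) t ht hst
      · exact (hc hK).2 s hs t (hLK ht) hst) (Set.range w) hwF
  have hJF : Fam N r J := hJmax.prop
  have hcount : J.Countable := fam_countable N r ⟨hr1, hr2⟩ hr0 J hJF
  have hinj : Function.Injective w := by
    intro m n hmn
    by_contra hne
    have e1 := hwo m n hne
    rw [← hmn, hww] at e1
    exact hr0 e1
  have hinf : J.Infinite := (Set.infinite_range_of_injective hinj).mono hJw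
  have : Countable J := hcount.to_subtype
  have : Infinite J := hinf.to_subtype
  obtain ⟨e⟩ : Nonempty (ℕ ≃ J) := inferInstance
  set s : ℕ → (H →L[ℂ] H) := fun n => (e n : H →L[ℂ] H) with hs
  have hsN : ∀ n, s n ∈ N := fun n => (hJF.1 _ (e n).2).1
  have hss : ∀ n, star (s n) * s n = r := fun n => (hJF.1 _ (e n).2).2
  have hsm : ∀ m n, m ≠ n → star (s m) * s n = 0 := by
    intro m n hmn
    refine hJF.2 _ (e m).2 _ (e n).2 (fun hh => hmn ?_)
    exact e.injective (Subtype.ext hh)
  have hsr : ∀ n, s n * r = s n := by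
    intro n
    have e1 : star (s n - s n * r) * (s n - s n * r) = 0 := mulproj hr1 hr2 (hss n)
    exact (sub_eq_zero.mp (zero_of_star _ e1)).symm
  obtain ⟨T, hTN, hTP, hTs, hTk⟩ := proj_span h1 N r s hsN hss hsm hsr
  have htP : Prj (1 - T) := by
    refine ⟨?_, ?_⟩
    · rw [star_sub, star_one, hTP.1]
    · exact onesub hTP.2
  have hts : ∀ n, (1 - T) * s n = 0 := by
    intro n; rw [sub_mul, one_mul, hTs, sub_self]
  rcases h2 H N hF r hrN (1 - T) (sub_mem (one_mem N) hTN) ⟨hr1, hr2⟩ htP with
    ⟨u, huN, hu1, hu2⟩ | ⟨v0, hv0N, hv01, hv02⟩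
  · exfalso
    have hsu : ∀ t ∈ J, star t * u = 0 := by
      intro t ht
      have e0 : s (e.symm ⟨t, ht⟩) = t := by simp only [hs, Equiv.apply_symm_apply]
      have e1 := congrArg star (hts (e.symm ⟨t, ht⟩))
      rw [e0, star_mul, htP.1, star_zero] at e1
      calc star t * u = star t * ((1 - T) * u) := by rw [hu2]
        _ = (star t * (1 - T)) * u := by rw [mul_assoc]
        _ = 0 := by rw [e1, zero_mul]
    have hus : ∀ t ∈ J, star u * t = 0 := by
      intro t ht
      have e1 := congrArg star (hsu t ht)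
      rw [star_mul, star_star, star_zero] at e1
      exact e1
    have hF2 : Fam N r (insert u J) := by
      refine ⟨?_, ?_⟩
      · intro t ht
        rcases Set.mem_insert_iff.mp ht with rfl | ht
        · exact ⟨huN, hu1⟩
        · exact hJF.1 t ht
      · intro t ht t' ht' hne
        rcases Set.mem_insert_iff.mp ht with htu | htJ
        · rcases Set.mem_insert_iff.mp ht' with htu' | htJ'
          · exact absurd (htu.trans htu'.symm) hne
          · rw [htu]; exact hus t' htJ'
        · rcases Set.mem_insert_iff.mp ht' with htu' | htJ'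
          · rw [htu']; exact hsu t htJ
          · exact hJF.2 t htJ t' htJ' hne
    have hmem : u ∈ J := by
      have := hJmax.le_of_ge hF2 (Set.subset_insert u J)
      exact this (Set.mem_insert u J)
    have := hsu u hmem
    rw [hu1] at this
    exact hr0 this
  · have hv0t : v0 * (1 - T) = v0 := by
      have e1 : star (v0 - v0 * (1 - T)) * (v0 - v0 * (1 - T)) = 0 := mulproj htP.1 htP.2 hv01
      exact (sub_eq_zero.mp (zero_of_star _ e1)).symm
    have hyp : Hyp s v0 r :=
      { r1 := hr1
        r2 := hr2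
        ss := hss
        sm := hsm
        sr := hsr
        vs := fun n => by rw [← hv0t, mul_assoc, hts, mul_zero]
        rv := hv02
        vv := by rw [mul_assoc, hv01, hv0t] }
    obtain ⟨g, hg⟩ := final h1 N r v0 T s hsN hv0N hyp hrN hr0 hv01 hTk
    exact ⟨r, g, hg⟩

end Pool.Agent.W32.WDM
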