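import Pool.Agent.W558.WD.Stms
import Pool.Agent.W558.S.All

/-!
GIR0: Giraud's theorem, termination (subtask WILD-GIR0).
-/

set_option autoImplicit false

universe u

open Polynomial

namespace Pool.Agent.W32.WD

open Pool.Agent.W558

theorem zpow_mem {k E : Type u} [Field k] [Field E] [Algebra k E] {W : Subalgebra k E} {x : E}
    (h : x ∈ W) (h' : x⁻¹ ∈ W) (n : ℤ) : x ^ n ∈ W := by
  cases n with
  | ofNat n =>
    rw [Int.ofNat_eq_natCast, zpow_natCast]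
    exact W.pow_mem h n
  | negSucc n =>
    rw [zpow_negSucc, ← inv_pow]
    exact W.pow_mem h' _

theorem main (hty : WD_ty.{u}) (hbt : WD_bt.{u}) (hfcs : WD_fcs.{u}) (hfinb : WD_finb.{u})
    (hgwf : WD_gwf.{u}) : WD_gir0.{u} := by
  intro k E _ _ _ _ h2 s G _ g Γ hFn f hf hCO
  let P : SM k E → Prop := fun s => CO s f ∧
    ∀ W, s.Dv W → s.Bdy W ∨ ∀ b, g b ∈ W ∧ (g b)⁻¹ ∈ W
  let Bad : SM k E → Set (Subalgebra k E) := fun s =>
    {O | (∃ t, IsPt (s.M.A t) O) ∧ ¬ Gd O (bdy s.M O) f}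
  let l : SM k E → Subalgebra k E → Subalgebra k E × Set E := fun s O => (O, bdy s.M O)
  have hg0 : ∀ b, g b ≠ 0 := by
    intro b
    obtain ⟨t, -⟩ := s.M.cv ⊤ (fun a _ => ValuationSubring.mem_top a)
    obtain ⟨w, hw0, -, -, hgb⟩ := hFn b t
    rw [hgb]
    exact mul_ne_zero hw0 (Finset.prod_ne_zero_iff.2 fun i _ => zpow_ne_zero _ (s.M.x0 t i))
  have hP : P s := by
    refine ⟨hCO, fun W hW => ?_⟩
    by_cases hb : s.Bdy W
    · exact Or.inl hb
    · right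
      obtain ⟨t, ht⟩ := hW
      intro b
      obtain ⟨w, hw0, hw1, hw2, hgb⟩ := hFn b t
      have hx : ∀ i, s.M.x t i ∈ W ∧ (s.M.x t i)⁻¹ ∈ W := by
        intro i
        have h3 : ¬ NU W (s.M.x t i) := fun h4 => hb ⟨t, i, ht, h4⟩
        have h4 := ht.le (s.M.xA t i)
        exact ⟨h4, ((not_NU_iff h4).1 h3).2⟩
      rw [hgb]
      refine ⟨W.mul_mem (ht.le hw1) (W.prod_mem fun i _ => zpow_mem (hx i).1 (hx i).2 _), ?_⟩
      rw [mul_inv, ← Finset.prod_inv_distrib]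
      refine W.mul_mem (ht.le hw2) (W.prod_mem fun i _ => ?_)
      rw [← zpow_neg]
      exact zpow_mem (hx i).1 (hx i).2 _
  have hF : ∀ s, P s → (Bad s).Finite := fun s _ => hfinb k E h2 s f hf
  have hS : ∀ s, P s → ∀ a ∈ Bad s, ∃ s', SM.Le s s' ∧ P s' ∧ ∀ a' ∈ Bad s',
      (a' ∈ Bad s ∧ a' ≠ a ∧ l s' a' = l s a') ∨ rG f (l s' a') (l s a) := by
    rintro s ⟨hs1, hs2⟩ O ⟨hO, hgd⟩
    obtain ⟨T', hT', M', π, W', hsf, hirr, hB, hLe⟩ := exists_step all_blow h2 s hO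
    have hCO' : CO (⟨T', Option s.I, hT', inferInstance, M', W', hsf, hirr⟩ : SM k E) f := by
      intro W hW
      rcases hLe.dv W hW with h3 | h3
      · rcases hs1 W h3 with h4 | h4
        · exact Or.inl (hLe.bd W hW h4)
        · exact Or.inr h4
      · exact Or.inl h3
    refine ⟨_, hLe, ⟨hCO', ?_⟩, ?_⟩
    · intro W hW
      rcases hLe.dv W hW with h3 | h3
      · rcases hs2 W h3 with h4 | h4
        · exact Or.inl (hLe.bd W hW h4)
        · exact Or.inr h4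
      · exact Or.inl h3
    · rintro O' ⟨⟨t', hO'⟩, hgd'⟩
      rcases hbt k E s.T T' s.I s.M O M' π hB hO t' O' hO' with ⟨h3, h4, h5⟩ | ⟨h3, h4⟩
      · left
        have h6 : IsPt (s.M.A (π t')) O' := by
          rcases hB.pt t' O' hO' with ⟨-, h7, -⟩ | ⟨-, h7⟩
          · exact h7
          · exact absurd (h7.nu _ h7.eO) h3
        refine ⟨⟨⟨_, h6⟩, ?_⟩, h4, ?_⟩
        · rw [← h5]
          exact hgd'
        · show (O', bdy M' O') = (O', bdy s.M O')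
          rw [h5]
      · right
        obtain ⟨t, ht⟩ := hO
        exact ⟨⟨_, s.sf t, ht⟩, ⟨_, hsf t', hO'⟩, hty k E h2 s t O ht,
          hty k E h2 ⟨T', Option s.I, hT', inferInstance, M', W', hsf, hirr⟩ t' O' hO',
          hfcs k E h2 s f hf hs1 t O ht,
          hfcs k E h2 ⟨T', Option s.I, hT', inferInstance, M', W', hsf, hirr⟩ f hf hCO' t' O' hO',
          hgd, hgd', _, h3, h4⟩
  obtain ⟨s', h3, h4, h5⟩ := Pool.Agent.W973.TERM.main.{max 1 u, u, u} (SM k E) (Subalgebra k E)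
    (Subalgebra k E × Set E) SM.Le Bad l (rG f) P SM.Le.refl
    (fun s s' s'' h h' => h.trans h') (hgwf k E h2 f hf) hF hS s hP
  obtain ⟨Γ', hΓ'⟩ := all_fn k E h2 s' G g hg0 h4.2
  refine ⟨s', Γ', hΓ', h4.1, ?_⟩
  intro t O hO
  by_contra hg
  have h6 : O ∈ Bad s' := ⟨⟨t, hO⟩, hg⟩
  rw [h5] at h6
  exact h6

end Pool.Agent.W32.WD
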